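import Pool.Agent.Lib.MP_c7af3c_ag.GEN.H26.MainGroups

/-!
# MP_c7af3c_ag, project Y: schemes finite over the zero locus of an arbitrary set of forms
The arguments are those of the modules SFIN, GFIN and GRPL of project GEN.
-/

set_option autoImplicit false

namespace Pool.Agent.GenY.H46

open AlgebraicGeometry CategoryTheory CategoryTheory.Limits MonoidalCategory
  CartesianMonoidalCategory MonObj
open MvPolynomial (homogeneousSubmodule)
open Pool.Agent.Gen Pool.Agent.Gen.H26

/-- finitely many normalized solutions with coordinates in a finitely generated field -/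
def FinSol (k : Type) [Field k] (n : ℕ) (F : Set (MvPolynomial (Fin (n + 1)) k)) : Prop :=
  ∀ S : Set k, S.Finite → ∀ j0 : Fin (n + 1),
    {x : Fin (n + 1) → k | x j0 = 1 ∧ (∀ j, x j ∈ Subfield.closure S) ∧
      ∀ g ∈ F, MvPolynomial.eval x g = 0}.Finite

/-- `X` has a finite morphism to the zero locus of `F` in projective space. -/
def FinOver (k : Type) [Field k] (n : ℕ) (F : Set (MvPolynomial (Fin (n + 1)) k))
    (X : Over (Spec (CommRingCat.of k))) : Prop :=
  ∃ (_ : GradedAlgebra (homogeneousSubmodule (Fin (n + 1)) k))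
    (i : X.left ⟶ Proj (homogeneousSubmodule (Fin (n + 1)) k)),
    IsFinite i ∧ i ≫ projStr k n = X.hom ∧
    ∀ (a : X.left), ∀ g ∈ F, g ∈ (i.base a).asHomogeneousIdeal

/-- Arithmetic hyperbolicity from finiteness, for an arbitrary set of forms. -/
theorem sfinY (k : Type) [Field k] (n : ℕ) (F : Set (MvPolynomial (Fin (n + 1)) k))
    (hF : ∀ g ∈ F, ∃ e, g.IsHomogeneous e) (hL : FinSol k n F)
    (X : Over (Spec (CommRingCat.of k))) (hX : FinOver k n F X) : IsAH k X := by
  intro R hR M hsep hlft hqc he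
  obtain ⟨inst, i, hi, hiX, hiF⟩ := hX
  obtain ⟨e, he⟩ := he
  have PF := H38.sproj k n
  set p := M.hom with hp
  -- the morphism to projective space
  set φ : pullback p (specIncl R) ⟶ Proj (homogeneousSubmodule (Fin (n + 1)) k) :=
    e.hom ≫ i with hφ
  have hφstr : φ ≫ projStr k n = pullback.snd p (specIncl R) := by
    rw [hφ, Category.assoc, hiX]
    exact he
  have hφF : ∀ (a : ↥(pullback p (specIncl R))), ∀ g ∈ F,
      g ∈ (φ.base a).asHomogeneousIdeal := by
    intro a m hm
    have : φ.base a = i.base (e.hom.base a) := by rw [hφ]; simp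
    rw [this]
    exact hiF _ m hm
  have hφfin : IsFinite φ := by
    rw [hφ]
    infer_instance
  -- the opens and the sections
  let D : Fin (n + 1) → (Proj (homogeneousSubmodule (Fin (n + 1)) k)).Opens := fun j =>
    Proj.basicOpen (homogeneousSubmodule (Fin (n + 1)) k) (MvPolynomial.X j)
  have hDaff : ∀ j, IsAffineOpen (D j) := fun j =>
    Proj.isAffineOpen_basicOpen (homogeneousSubmodule (Fin (n + 1)) k) (MvPolynomial.X j)
      (m := 1) (MvPolynomial.isHomogeneous_X k j) Nat.one_pos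
  have hVc : ∀ j, IsCompact (φ ⁻¹ᵁ D j).carrier := fun j =>
    ((hDaff j).preimage φ).isCompact
  have hT : ∀ j l : Fin (n + 1), ∃ T : Set k, T.Finite ∧
      ∀ (s : Spec (CommRingCat.of R) ⟶ M.left) (hs : s ≫ p = 𝟙 _)
        (h : ⊤ ≤ secPt R p s hs ⁻¹ᵁ (φ ⁻¹ᵁ D j)),
        kval (secPt R p s hs) (φ ⁻¹ᵁ D j) h ((φ.app (D j)).hom (coordSec k n j l)) ∈
          Subfield.closure (R ∪ T) := fun j l =>
    (H17.spread H96.sfrac H17.stens) k R M.left p (φ ⁻¹ᵁ D j) (hVc j) _
  choose T hTfin hTval using hT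
  obtain ⟨S0, hS0, hRS⟩ := H81.fg_closure R hR
  set S : Set k := S0 ∪ ⋃ j, ⋃ l, T j l with hS
  have hSfin : S.Finite := hS0.union (Set.finite_iUnion fun j => Set.finite_iUnion fun l => hTfin j l)
  have hRT : ∀ j l, Subfield.closure ((R : Set k) ∪ T j l) ≤ Subfield.closure S := by
    intro j l
    rw [Subfield.closure_le]
    rintro x (hx | hx)
    · exact Subfield.closure_mono Set.subset_union_left (hRS hx)
    · refine Subfield.subset_closure (Or.inr ?_)
      exact Set.mem_iUnion.2 ⟨j, Set.mem_iUnion.2 ⟨l, hx⟩⟩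
  -- the finite sets
  have hfin := fun j0 => hL S hSfin j0
  -- sections in the chart `j`
  let A : Fin (n + 1) → Set (Spec (CommRingCat.of R) ⟶ M.left) := fun j =>
    {s | ∃ hs : s ≫ p = 𝟙 _, ⊤ ≤ (secPt R p s hs ≫ φ) ⁻¹ᵁ D j}
  have hcov : {s : Spec (CommRingCat.of R) ⟶ M.left | s ≫ p = 𝟙 _} ⊆ ⋃ j, A j := by
    intro s hs
    have hs' : s ≫ p = 𝟙 _ := hs
    let pt : ↥(Spec (CommRingCat.of k)) := (⊥ : PrimeSpectrum k)
    obtain ⟨j, hj⟩ := PF.chart ((secPt R p s hs' ≫ φ).base pt)
    refine Set.mem_iUnion.2 ⟨j, hs', ?_⟩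
    intro x _
    have hx : x = pt := Subsingleton.elim (α := PrimeSpectrum k) _ _
    rw [hx]
    exact hj
  refine Set.Finite.subset (Set.finite_iUnion fun j => ?_) hcov
  -- injectivity
  have hstr : ∀ (s : Spec (CommRingCat.of R) ⟶ M.left) (hs : s ≫ p = 𝟙 _),
      (secPt R p s hs ≫ φ) ≫ projStr k n = 𝟙 _ := by
    intro s hs
    rw [Category.assoc, hφstr]
    unfold secPt
    rw [pullback.lift_snd]
  have := (hfin j).to_subtype
  let g : A j → {x : Fin (n + 1) → k | x j = 1 ∧ (∀ l, x l ∈ Subfield.closure S) ∧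
      ∀ g ∈ F, MvPolynomial.eval x g = 0} := fun s =>
    ⟨pcoord k n j (secPt R p s.1 s.2.choose ≫ φ) s.2.choose_spec, by
      refine ⟨PF.one j _ _, fun l => ?_, fun m hm => ?_⟩
      · apply hRT j l
        have h1 := hTval j l s.1 s.2.choose s.2.choose_spec
        unfold pcoord
        rw [H81.kval_comp (secPt R p s.1 s.2.choose) φ (D j) s.2.choose_spec s.2.choose_spec]
        exact h1
      · refine PF.zero j _ _ (hstr s.1 s.2.choose) (hF m hm).choose m (hF m hm).choose_spec ?_
        intro a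
        have : (secPt R p s.1 s.2.choose ≫ φ).base a =
            φ.base ((secPt R p s.1 s.2.choose).base a) := by simp
        rw [this]
        exact hφF _ m hm⟩
  have hgfib : ∀ v, {s : A j | g s = v}.Finite := by
    intro v
    by_cases hv : ∃ s0 : A j, g s0 = v
    · obtain ⟨s0, rfl⟩ := hv
      have hfib := H59.sfib k _ _ φ hφfin (secPt R p s0.1 s0.2.choose ≫ φ)
      refine Set.Finite.of_finite_image (f := fun s : A j => secPt R p s.1 s.2.choose)
        (hfib.subset ?_) ?_
      · rintro x ⟨s, hs, rfl⟩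
        exact PF.inj j _ _ _ _ (hstr s.1 s.2.choose) (hstr s0.1 s0.2.choose)
          (congrArg Subtype.val hs)
      · intro s _ s' _ hss
        exact Subtype.ext (H38.sinj k R M.left p hsep s.1 s'.1 _ _ hss)
    · refine Set.Finite.subset Set.finite_empty fun s hs => hv ⟨s, hs⟩
  have hAj : (Set.univ : Set (A j)).Finite := by
    refine Set.Finite.of_finite_fibers g ?_ fun v _ => (hgfib v).subset fun s hs => hs.2
    exact Set.toFinite _
  exact Set.finite_coe_iff.1 (Set.finite_univ_iff.1 hAj)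

/-- Two of the points `φ(R P^n)` coincide. -/
theorem gfinY (k : Type) [Field k] [CharZero k] (n : ℕ)
    (F : Set (MvPolynomial (Fin (n + 1)) k)) (hhom : ∀ g ∈ F, ∃ e, g.IsHomogeneous e)
    [CartesianMonoidalCategory (Over (Spec (CommRingCat.of k)))]
    (A : Over (Spec (CommRingCat.of k))) [GrpObj A] (hprop : IsProper A.hom)
    [GradedAlgebra (homogeneousSubmodule (Fin (n + 1)) k)]
    (φ : A.left ⟶ Proj (homogeneousSubmodule (Fin (n + 1)) k)) (hφ : φ ≫ projStr k n = A.hom)
    (hF : ∀ (a : A.left), ∀ g ∈ F, g ∈ (φ.base a).asHomogeneousIdeal)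
    (K' : Type) [Field K'] [Algebra k K']
    (hL : FinSol K' n (MvPolynomial.map (algebraMap k K') '' F)) (P R : ptOver k K' ⟶ A) :
    ∃ n₁ n₂ : ℕ, n₁ ≠ n₂ ∧ (R * P ^ n₁).left ≫ φ = (R * P ^ n₂).left ≫ φ := by
  have hcharK : CharZero K' :=
    charZero_of_injective_algebraMap (algebraMap k K').injective
  obtain ⟨Ch⟩ := H33.gchart k A.left A.hom inferInstance inferInstance
  obtain ⟨T1, hT1, hmul⟩ := (H82.gmul H72.grat) k K' A hprop Ch
  have hval := fun j l : Fin (n + 1) => (H82.gval H72.grat) k K' A.left A.hom hprop Ch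
    (φ ⁻¹ᵁ Proj.basicOpen (homogeneousSubmodule (Fin (n + 1)) k) (MvPolynomial.X j))
    ((φ.app (Proj.basicOpen (homogeneousSubmodule (Fin (n + 1)) k) (MvPolynomial.X j))).hom
      (coordSec k n j l))
  choose T2 hT2 hval using hval
  -- the finitely generated field
  let S : Set K' := algebraMap k K' '' (T1 ∪ ⋃ j, ⋃ l, T2 j l) ∪ (H41.vals Ch P.left ∪ H41.vals Ch R.left)
  have hS : S.Finite := by
    refine ((hT1.union (Set.finite_iUnion fun j => Set.finite_iUnion fun l => hT2 j l)).image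
      _).union ((H41.vals_finite Ch _).union (H41.vals_finite Ch _))
  let K : Subfield K' := Subfield.closure S
  have hSK : S ⊆ K := Subfield.subset_closure
  have hratP : Ch.IsRat K P.left := by
    intro i h b hb
    exact hSK (Or.inr (Or.inl ⟨i, h, b, hb, rfl⟩))
  have hratR : Ch.IsRat K R.left := by
    intro i h b hb
    exact hSK (Or.inr (Or.inr ⟨i, h, b, hb, rfl⟩))
  have hmulK := hmul K (fun t ht => hSK (Or.inl ⟨t, Or.inl ht, rfl⟩))
  have hvalK := fun j l => hval j l K (fun t ht => hSK (Or.inl ⟨t, Or.inr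
    (Set.mem_iUnion.2 ⟨j, Set.mem_iUnion.2 ⟨l, ht⟩⟩), rfl⟩))
  have hrat : ∀ m : ℕ, Ch.IsRat K (R * P ^ m).left := by
    intro m
    induction m with
    | zero => rw [pow_zero, _root_.mul_one]; exact hratR
    | succ m ih =>
      rw [pow_succ, ← _root_.mul_assoc]
      exact hmulK _ _ ih hratP
  -- the points of projective space
  let y : ℕ → (Spec (CommRingCat.of K') ⟶ A.left) := fun m => (R * P ^ m).left
  have hy : ∀ m, y m ≫ A.hom = Spec.map (CommRingCat.ofHom (algebraMap k K')) :=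
    fun m => Over.w (R * P ^ m)
  let pt : Spec (CommRingCat.of K') := (⟨⊥, Ideal.isPrime_bot⟩ : PrimeSpectrum K')
  have hpt : ∀ x : Spec (CommRingCat.of K'), x = pt := fun x =>
    @Subsingleton.elim (PrimeSpectrum K') _ x pt
  have hch : ∀ m, ∃ j : Fin (n + 1), ⊤ ≤ (y m ≫ φ) ⁻¹ᵁ
      Proj.basicOpen (homogeneousSubmodule (Fin (n + 1)) k) (MvPolynomial.X j) := by
    intro m
    obtain ⟨j, hj⟩ := (H38.sproj k n).chart ((y m ≫ φ).base pt)
    refine ⟨j, ?_⟩
    intro x _
    rw [hpt x]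
    exact hj
  choose jm hjm using hch
  obtain ⟨j0, hj0⟩ := Finite.exists_infinite_fiber jm
  -- the coordinates of the points over `j0`
  have hfin := hL S hS j0
  let x : jm ⁻¹' {j0} → (Fin (n + 1) → K') := fun m =>
    pcoordE k n j0 (y m.1 ≫ φ) (by have := hjm m.1; rwa [show jm m.1 = j0 from m.2] at this)
  have hxS : ∀ m, x m ∈ {x : Fin (n + 1) → K' | x j0 = 1 ∧ (∀ j, x j ∈ Subfield.closure S) ∧
      ∀ g ∈ MvPolynomial.map (algebraMap k K') '' F, MvPolynomial.eval x g = 0} := by
    intro m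
    have hm : ⊤ ≤ (y m.1 ≫ φ) ⁻¹ᵁ
        Proj.basicOpen (homogeneousSubmodule (Fin (n + 1)) k) (MvPolynomial.X j0) := by
      have := hjm m.1; rwa [show jm m.1 = j0 from m.2] at this
    refine ⟨(H70.gproj k n K').one j0 _ hm, ?_, ?_⟩
    · intro l
      change kval (y m.1 ≫ φ) _ hm (coordSec k n j0 l) ∈ K
      rw [H41.kval_comp (y m.1) φ _ hm hm]
      exact hvalK j0 l (y m.1) (hy m.1) (hrat m.1) hm
    · rintro _ ⟨g, hg, rfl⟩
      have h2 := (H70.gproj k n K').zero j0 (y m.1 ≫ φ) hm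
        (by rw [Category.assoc, hφ, hy]) (hhom g hg).choose g (hhom g hg).choose_spec (fun a => by
          exact hF ((y m.1).base a) g hg)
      rw [MvPolynomial.eval_map, ← MvPolynomial.aeval_def]
      exact h2
  have hnotinj : ¬ Function.Injective x := by
    intro hinj
    have h3 : Finite (jm ⁻¹' {j0}) := by
      have h4 : (Set.range x).Finite := hfin.subset (by rintro _ ⟨m, rfl⟩; exact hxS m)
      exact Set.finite_range_iff hinj |>.1 h4
    exact hj0.not_finite h3
  rw [Function.Injective] at hnotinj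
  push Not at hnotinj
  obtain ⟨m1, m2, h12, hne⟩ := hnotinj
  refine ⟨m1.1, m2.1, fun h => hne (Subtype.ext h), ?_⟩
  exact (H70.gproj k n K').inj j0 _ _ _ _ (by rw [Category.assoc, hφ]; exact hy m1.1)
    (by rw [Category.assoc, hφ]; exact hy m2.1) h12

/-- Grouplessness from finiteness over all algebraically closed extensions. -/
theorem grplY (k : Type) [Field k] [IsAlgClosed k] [CharZero k] (n : ℕ)
    (F : Set (MvPolynomial (Fin (n + 1)) k)) (hhom : ∀ g ∈ F, ∃ e, g.IsHomogeneous e)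
    (hL : ∀ (K' : Type) [Field K'] [IsAlgClosed K'] [Algebra k K'],
      FinSol K' n (MvPolynomial.map (algebraMap k K') '' F))
    (X : Over (Spec (CommRingCat.of k))) (hX : FinOver k n F X) : IsGL k X := by
  intro cm A gA hAint hAprop g
  obtain ⟨inst, i, hi, hiX, hiF⟩ := hX
  have hYsep : IsSeparated (projStr k n) := by
    unfold projStr
    infer_instance
  let Y : Over (Spec (CommRingCat.of k)) := Over.mk (projStr k n)
  have hφ : (g.left ≫ i) ≫ projStr k n = A.hom := by
    rw [Category.assoc, hiX, Over.w]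
  let φ : A ⟶ Y := Over.homMk (g.left ≫ i) hφ
  have key : ∀ v : dualOver k ⟶ A, rho k 0 ≫ v ≫ φ = v ≫ φ := by
    intro v
    let Q : ptS k ⟶ A := iot k ≫ v
    have hQ : rho k 0 ≫ v = str k (dualOver k) ≫ Q := by
      rw [rho_zero, Category.assoc]
    let w : dualOver k ⟶ A := (rho k 0 ≫ v)⁻¹ * v
    have hw : rho k 0 ≫ w = 1 := by
      change rho k 0 ≫ ((rho k 0 ≫ v)⁻¹ * v) = 1
      rw [comp_mul, GrpObj.comp_inv, ← Category.assoc, rho_comp_rho_zero, inv_mul_cancel]
    have hw' : ∀ m : ℕ, (rho k 0 ≫ v) * w ^ m = rho k m ≫ v := by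
      intro m
      rw [H91.gdual k A w hw m]
      change _ * (rho k m ≫ ((rho k 0 ≫ v)⁻¹ * v)) = _
      rw [comp_mul, GrpObj.comp_inv, ← Category.assoc (rho k (m : k)), rho_comp_rho_zero,
        mul_inv_cancel_left]
    obtain ⟨K', _, _, _, P, hP⟩ := H83.ggen k A hAint
    obtain ⟨n₁, n₂, hne, heq⟩ := gfinY k n F hhom A hAprop (g.left ≫ i) hφ
      (fun a m hm => hiF (g.left.base a) m hm) K' (hL K') P (str k (ptOver k K') ≫ Q)
    let ψ : ℕ → (A ⟶ A) := fun m => (str k A ≫ Q) * (𝟙 A) ^ m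
    have hPψ : ∀ m, P ≫ ψ m = (str k (ptOver k K') ≫ Q) * P ^ m := by
      intro m
      change P ≫ ((str k A ≫ Q) * (𝟙 A) ^ m) = _
      rw [comp_mul, comp_pow, Category.comp_id, ← Category.assoc, comp_str]
    have h1 : ψ n₁ ≫ φ = ψ n₂ ≫ φ := by
      apply hP Y hYsep
      rw [← Category.assoc, ← Category.assoc, hPψ, hPψ]
      apply Over.OverMorphism.ext
      exact heq
    have hwψ : ∀ m, w ≫ ψ m = rho k m ≫ v := by
      intro m
      rw [← hw' m]
      change w ≫ ((str k A ≫ Q) * (𝟙 A) ^ m) = _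
      rw [comp_mul, comp_pow, Category.comp_id, ← Category.assoc, comp_str, hQ]
    have h2 : rho k n₁ ≫ v ≫ φ = rho k n₂ ≫ v ≫ φ := by
      rw [← Category.assoc, ← Category.assoc, ← hwψ, ← hwψ, Category.assoc, Category.assoc, h1]
    apply Over.OverMorphism.ext
    exact H33.gtzero k Y.left (v ≫ φ).left n₁ n₂ hne (congrArg (fun f => f.left) h2)
  have hconst := H58.gtan k A Y hAint (by infer_instance) hYsep φ key
  exact H32.gfib A.left X.left _ hAint g.left i hi hconst


end Pool.Agent.GenY.H46
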