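import Mathlib

/-!
# MP_c7af3c_ag, project Y: module RANK
The derivatives of a point of a projective variety of dimension `≤ n` span, together with the
point, a space of dimension `≤ n + 1`.
-/

set_option autoImplicit false

namespace Pool.Agent.GenY.H46

open MvPolynomial

/-! ### Krull dimension (as in Lib/MP_43d240_ag/FZ/H91/Dim.lean) -/

/-- Integral extensions preserve the Krull dimension. -/
theorem krullDim_integral (R S : Type*) [CommRing R] [CommRing S] [Algebra R S]
    [Algebra.IsIntegral R S] (hinj : Function.Injective (algebraMap R S)) :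
    ringKrullDim S = ringKrullDim R := by
  apply le_antisymm
  · apply Order.krullDim_le_of_strictMono (PrimeSpectrum.comap (algebraMap R S))
    intro P Q hPQ
    have h : P.asIdeal < Q.asIdeal := hPQ
    exact Ideal.IsIntegral.comap_lt_comap h
  · apply iSup_le
    intro l
    obtain ⟨P, -, hP, hP2⟩ := Ideal.exists_ideal_over_prime_of_isIntegral
      (RelSeries.head l).asIdeal (⊥ : Ideal S) (by
        rw [← RingHom.ker_eq_comap_bot, (RingHom.injective_iff_ker_eq_bot _).1 hinj]
        exact bot_le)
    have : P.LiesOver (RelSeries.head l).asIdeal := ⟨hP2.symm⟩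
    obtain ⟨L, hL, -⟩ := Ideal.exists_ltSeries_of_hasGoingUp l P
    rw [← hL]
    exact le_iSup (fun p : LTSeries (PrimeSpectrum S) => (p.length : WithBot ℕ∞)) L

/-- The dimension of a finitely generated domain is the transcendence degree. -/
theorem krullDim_eq_trdeg (k A : Type) [Field k] [CommRing A] [IsDomain A] [Algebra k A]
    [Algebra.FiniteType k A] (n : ℕ) (h : Algebra.trdeg k A = n) : ringKrullDim A = n := by
  obtain ⟨s, g, hinj, hint⟩ := exists_integral_inj_algHom_of_fg k A
  let _ : Algebra (MvPolynomial (Fin s) k) A := g.toRingHom.toAlgebra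
  have : IsScalarTower k (MvPolynomial (Fin s) k) A := IsScalarTower.of_algebraMap_eq
    (fun c => (g.commutes c).symm)
  have : Algebra.IsIntegral (MvPolynomial (Fin s) k) A := ⟨hint⟩
  have hinj' : Function.Injective (algebraMap (MvPolynomial (Fin s) k) A) := hinj
  have : FaithfulSMul (MvPolynomial (Fin s) k) A :=
    (faithfulSMul_iff_algebraMap_injective _ _).2 hinj'
  rw [krullDim_integral (MvPolynomial (Fin s) k) A hinj',
    MvPolynomial.ringKrullDim_of_isNoetherianRing, ringKrullDim_eq_zero_of_field]
  have h1 := trdeg_add_eq k (MvPolynomial (Fin s) k) (A := A)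
  rw [trdeg_eq_zero (R := MvPolynomial (Fin s) k) (A := A), h, add_zero,
    MvPolynomial.trdeg_of_isDomain] at h1
  have h2 : s = n := by
    have : (s : Cardinal.{0}) = n := by simpa using h1
    exact_mod_cast this
  subst h2
  simp

/-- A finitely generated algebra with `r` algebraically independent elements in a quotient domain
has dimension at least `r`. -/
theorem le_krullDim {k A B ι : Type} [Field k] [CommRing A] [Algebra k A] [Algebra.FiniteType k A]
    [CommRing B] [IsDomain B] [Algebra k B] (f : A →ₐ[k] B) [Fintype ι] (y : ι → B)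
    (hy : AlgebraicIndependent k y) (hf : ∀ i, y i ∈ f.range) (n : ℕ)
    (hn : ringKrullDim A ≤ n) : Fintype.card ι ≤ n := by
  have hfin : Algebra.FiniteType k f.range :=
    Algebra.FiniteType.of_surjective f.rangeRestrict f.rangeRestrict_surjective
  have h1 : Algebra.trdeg k f.range < Cardinal.aleph0 :=
    trdeg_lt_aleph0_of_finiteType
  obtain ⟨t, ht⟩ := Cardinal.lt_aleph0.1 h1
  have h2 : ringKrullDim f.range = t := krullDim_eq_trdeg k f.range t ht
  have h3 : ringKrullDim f.range ≤ ringKrullDim A :=
    ringKrullDim_le_of_surjective f.rangeRestrict.toRingHom f.rangeRestrict_surjective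
  have h4 : AlgebraicIndependent k (fun i => (⟨y i, hf i⟩ : f.range)) := by
    apply AlgebraicIndependent.of_comp f.range.val
    exact hy
  have h5 := h4.cardinalMk_le_trdeg
  rw [ht] at h5
  have h6 : Fintype.card ι ≤ t := by
    rw [Cardinal.mk_fintype] at h5
    exact_mod_cast h5
  have h7 : (t : WithBot ℕ∞) ≤ n := by
    rw [← h2]; exact h3.trans hn
  have h8 : t ≤ n := by exact_mod_cast h7
  exact h6.trans h8

/-! ### Derivations -/

section der

variable {k0 K : Type} [Field k0] [Field K] [Algebra k0 K]

theorem der_eval (δ : Derivation k0 K K) (P : Polynomial K) (b : K) :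
    δ (P.eval b) = (P.sum fun i a => δ a * b ^ i) + P.derivative.eval b * δ b := by
  induction P using Polynomial.induction_on' with
  | add p q hp hq =>
    rw [Polynomial.eval_add, map_add, hp, hq, Polynomial.derivative_add, Polynomial.eval_add,
      Polynomial.sum_add_index p q _ (by simp) (by
        intro a b₁ b₂; rw [map_add, add_mul])]
    ring
  | monomial i a =>
    rw [Polynomial.sum_monomial_index _ _ (by simp), Polynomial.derivative_monomial,
      Polynomial.eval_monomial, Polynomial.eval_monomial, Derivation.leibniz,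
      Derivation.leibniz_pow]
    simp only [smul_eq_mul, nsmul_eq_mul]
    ring

variable {σ : Type} [Fintype σ] (s : σ → K)

/-- the elements whose derivatives are fixed combinations of the derivatives of the `s l` -/
def Dep (z : K) : Prop := ∃ c : σ → K, ∀ δ : Derivation k0 K K, δ z = ∑ l, c l * δ (s l)

/-- they form a field -/
def depField : IntermediateField k0 K where
  carrier := {z | Dep (k0 := k0) s z}
  mul_mem' := by
    rintro a b ⟨c, hc⟩ ⟨c', hc'⟩
    refine ⟨fun l => a * c' l + b * c l, fun δ => ?_⟩
    rw [Derivation.leibniz, hc, hc', smul_eq_mul, smul_eq_mul, Finset.mul_sum, Finset.mul_sum,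
      ← Finset.sum_add_distrib]
    exact Finset.sum_congr rfl fun l _ => by ring
  one_mem' := ⟨0, fun δ => by simp⟩
  add_mem' := by
    rintro a b ⟨c, hc⟩ ⟨c', hc'⟩
    refine ⟨fun l => c l + c' l, fun δ => ?_⟩
    rw [map_add, hc, hc', ← Finset.sum_add_distrib]
    exact Finset.sum_congr rfl fun l _ => by ring
  zero_mem' := ⟨0, fun δ => by simp⟩
  algebraMap_mem' := fun a => ⟨0, fun δ => by simp⟩
  inv_mem' := by
    rintro a ⟨c, hc⟩
    refine ⟨fun l => - (a⁻¹ ^ 2) * c l, fun δ => ?_⟩
    rw [Derivation.leibniz_inv, hc, smul_eq_mul, Finset.mul_sum]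
    exact Finset.sum_congr rfl fun l _ => by ring

theorem mem_depField {z : K} : z ∈ depField (k0 := k0) s ↔ Dep (k0 := k0) s z := Iff.rfl

theorem subset_depField (l : σ) : s l ∈ depField (k0 := k0) s := by
  classical
  refine ⟨Pi.single l 1, fun δ => ?_⟩
  rw [Finset.sum_eq_single l]
  · simp
  · intro b _ hb; simp [Pi.single_eq_of_ne hb]
  · intro h; exact absurd (Finset.mem_univ l) h

/-- the field is algebraically closed in `K` -/
theorem dep_of_algebraic [CharZero K] (b : K) (hb : IsAlgebraic (depField (k0 := k0) s) b) :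
    b ∈ depField (k0 := k0) s := by
  set B := depField (k0 := k0) s with hB
  have hch : CharZero B := (algebraMap B K).charZero
  set P := minpoly B b with hP
  have hirr : Irreducible P := minpoly.irreducible hb.isIntegral
  have hsep : P.Separable := hirr.separable
  have h0 : Polynomial.aeval b P = 0 := minpoly.aeval B b
  have hd : Polynomial.aeval b P.derivative ≠ 0 := hsep.aeval_derivative_ne_zero h0
  have hc : ∀ i, ∃ c : σ → K, ∀ δ : Derivation k0 K K,
      δ ((P.coeff i : B) : K) = ∑ l, c l * δ (s l) := fun i => (P.coeff i).2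
  choose c hc using hc
  set Q := P.map (algebraMap B K) with hQ
  have hQ0 : Q.eval b = 0 := by rw [hQ, Polynomial.eval_map_algebraMap]; exact h0
  have hQd : Q.derivative.eval b ≠ 0 := by
    rw [hQ, Polynomial.derivative_map, Polynomial.eval_map_algebraMap]; exact hd
  have hQc : ∀ i, Q.coeff i = ((P.coeff i : B) : K) := fun i => by
    rw [hQ, Polynomial.coeff_map]; rfl
  refine ⟨fun l => - (∑ i ∈ Q.support, c i l * b ^ i) / Q.derivative.eval b, fun δ => ?_⟩
  have h1 := der_eval δ Q b
  rw [hQ0, map_zero, Polynomial.sum_def] at h1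
  have h2 : ∑ i ∈ Q.support, δ (Q.coeff i) * b ^ i =
      ∑ l, (∑ i ∈ Q.support, c i l * b ^ i) * δ (s l) := by
    simp only [Finset.sum_mul]
    rw [Finset.sum_comm]
    refine Finset.sum_congr rfl fun i _ => ?_
    rw [hQc, hc, Finset.sum_mul]
    exact Finset.sum_congr rfl fun l _ => by ring
  rw [h2] at h1
  have h3 : δ b = - (∑ l, (∑ i ∈ Q.support, c i l * b ^ i) * δ (s l)) / Q.derivative.eval b := by
    field_simp
    linear_combination -h1
  rw [h3, ← Finset.sum_neg_distrib, Finset.sum_div]
  exact Finset.sum_congr rfl fun l _ => by ring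

end der

/-- the rank of the derivatives of a point whose coordinates are algebraic over `s` -/
theorem finrank_le {k0 K : Type} [Field k0] [Field K] [Algebra k0 K] [CharZero K] {σ : Type}
    [Fintype σ] (s : σ → K) {ι : Type} [Finite ι] (x : ι → K)
    (hx : ∀ p, IsAlgebraic (Algebra.adjoin k0 (Set.range s)) (x p)) :
    Module.finrank K (Submodule.span K {u : ι → K | ∃ δ : Derivation k0 K K,
      u = fun p => δ (x p)}) ≤ Fintype.card σ := by
  classical
  have hdep : ∀ p, Dep (k0 := k0) s (x p) := by
    intro p
    rw [← mem_depField]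
    apply dep_of_algebraic
    have h1 : Algebra.adjoin k0 (Set.range s) ≤ (depField (k0 := k0) s).toSubalgebra := by
      rw [Algebra.adjoin_le_iff]
      rintro _ ⟨l, rfl⟩
      exact subset_depField s l
    obtain ⟨P, hP0, hP⟩ := hx p
    refine ⟨P.map (Subalgebra.inclusion h1).toRingHom, ?_, ?_⟩
    · rwa [Ne, Polynomial.map_eq_zero_iff (Subalgebra.inclusion_injective h1)]
    · rw [Polynomial.aeval_def, Polynomial.eval₂_map]
      exact hP
  choose c hc using hdep
  let g : (σ → K) →ₗ[K] (ι → K) :=
    { toFun := fun a p => ∑ l, c p l * a l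
      map_add' := fun a b => by
        funext p
        simp only [Pi.add_apply, mul_add, Finset.sum_add_distrib]
      map_smul' := fun r a => by
        funext p
        simp only [Pi.smul_apply, smul_eq_mul, RingHom.id_apply, Finset.mul_sum]
        exact Finset.sum_congr rfl fun l _ => by ring }
  have h1 : Submodule.span K {u : ι → K | ∃ δ : Derivation k0 K K, u = fun p => δ (x p)} ≤
      LinearMap.range g := by
    rw [Submodule.span_le]
    rintro _ ⟨δ, rfl⟩
    exact ⟨fun l => δ (s l), by funext p; exact (hc p δ).symm⟩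
  calc _ ≤ Module.finrank K (LinearMap.range g) := Submodule.finrank_mono h1
    _ ≤ Module.finrank K (σ → K) := LinearMap.finrank_range_le g
    _ = Fintype.card σ := Module.finrank_fintype_fun_eq_card K


/-! ### Points of projective varieties -/

section cone

variable {k0 : Type} [Field k0]

/-- homogeneous polynomials and scaling -/
theorem aeval_scale {B : Type} [CommRing B] [Algebra k0 B] {ι : Type} [Fintype ι]
    {g : MvPolynomial ι k0} {e : ℕ} (hg : g.IsHomogeneous e) (r : B) (z : ι → B) :
    aeval (fun p => r * z p) g = r ^ e * aeval z g := by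
  rw [aeval_def, eval₂_eq', aeval_def, eval₂_eq', Finset.mul_sum]
  refine Finset.sum_congr rfl fun I hI => ?_
  have h1 : I.degree = e := by
    have := hg (mem_support_iff.1 hI)
    rw [← this, Finsupp.degree_eq_weight_one]
    rfl
  have h2 : ∏ i, (r * z i) ^ I i = r ^ e * ∏ i, z i ^ I i := by
    rw [← h1, Finsupp.degree_eq_sum, ← Finset.prod_pow_eq_pow_sum, ← Finset.prod_mul_distrib]
    exact Finset.prod_congr rfl fun i _ => mul_pow _ _ _
  rw [h2]
  ring

/-- monomial substitution is injective -/
theorem theta_inj (σ : Type) : Function.Injective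
    (aeval (R := k0) (Sum.elim (fun _ : Unit => X (Sum.inl ()))
      (fun p : σ => X (Sum.inl ()) * X (Sum.inr p)) :
        Unit ⊕ σ → MvPolynomial (Unit ⊕ σ) k0)) := by
  set θ := aeval (R := k0) (Sum.elim (fun _ : Unit => X (Sum.inl ()))
      (fun p : σ => X (Sum.inl ()) * X (Sum.inr p)) : Unit ⊕ σ → MvPolynomial (Unit ⊕ σ) k0)
    with hθ
  let Q := FractionRing (MvPolynomial (Unit ⊕ σ) k0)
  let q := algebraMap (MvPolynomial (Unit ⊕ σ) k0) Q
  have hq : Function.Injective q := IsFractionRing.injective (MvPolynomial (Unit ⊕ σ) k0) Q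
  have hX : q (X (Sum.inl ())) ≠ 0 := fun h => X_ne_zero (R := k0) (Sum.inl () : Unit ⊕ σ)
    (hq (by rw [h, map_zero]))
  let η : MvPolynomial (Unit ⊕ σ) k0 →ₐ[k0] Q :=
    aeval (Sum.elim (fun _ => q (X (Sum.inl ())))
      (fun p : σ => (q (X (Sum.inl ())))⁻¹ * q (X (Sum.inr p))))
  have h1 : η.comp θ = (Algebra.ofId (MvPolynomial (Unit ⊕ σ) k0) Q).restrictScalars k0 := by
    apply MvPolynomial.algHom_ext
    rintro (u | p)
    · change η (θ (X (Sum.inl u))) = q (X (Sum.inl u))
      rw [hθ, aeval_X, Sum.elim_inl]
      change aeval _ (X (Sum.inl ())) = _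
      rw [aeval_X, Sum.elim_inl]
    · change η (θ (X (Sum.inr p))) = q (X (Sum.inr p))
      rw [hθ, aeval_X, Sum.elim_inr, map_mul]
      change aeval _ (X (Sum.inl ())) * aeval _ (X (Sum.inr p)) = _
      rw [aeval_X, aeval_X, Sum.elim_inl, Sum.elim_inr, ← mul_assoc, mul_inv_cancel₀ hX, one_mul]
  intro a b hab
  apply hq
  have h2 := congrArg η hab
  have h3 : ∀ a, η (θ a) = q a := fun a => congrArg (fun f => f a) h1
  rwa [h3, h3] at h2

theorem indep_cone {K σ : Type} [Field K] [Algebra k0 K] (s : σ → K)
    (hs : AlgebraicIndependent k0 s) : AlgebraicIndependent k0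
      (Sum.elim (fun _ : Unit => Polynomial.X) (fun p : σ => Polynomial.X * Polynomial.C (s p)) :
        Unit ⊕ σ → Polynomial K) := by
  have hX : AlgebraicIndependent K (fun _ : Unit => (Polynomial.X : Polynomial K)) := by
    rw [algebraicIndependent_unique_type_iff]
    exact Polynomial.transcendental_X K
  have h1 : AlgebraicIndependent k0
      (Sum.elim (fun _ : Unit => (Polynomial.X : Polynomial K)) (algebraMap K _ ∘ s)) :=
    hs.sumElim_comp hX
  have h2 : aeval (R := k0) (Sum.elim (fun _ : Unit => Polynomial.X)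
      (fun p : σ => Polynomial.X * Polynomial.C (s p)) : Unit ⊕ σ → Polynomial K) =
      (aeval (Sum.elim (fun _ : Unit => (Polynomial.X : Polynomial K)) (algebraMap K _ ∘ s))).comp
        (aeval (Sum.elim (fun _ : Unit => X (Sum.inl ()))
          (fun p : σ => X (Sum.inl ()) * X (Sum.inr p)) :
            Unit ⊕ σ → MvPolynomial (Unit ⊕ σ) k0)) := by
    apply MvPolynomial.algHom_ext
    rintro (u | p)
    · simp
    · simp
  rw [AlgebraicIndependent, h2, AlgHom.coe_comp]
  exact Function.Injective.comp h1 (theta_inj σ)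

end cone

/-- Module RANK. -/
theorem rank_bound {k0 K : Type} [Field k0] [Field K] [Algebra k0 K] [CharZero K] {N n : ℕ}
    (G : Set (MvPolynomial (Fin (N + 1)) k0)) (hG : ∀ g ∈ G, ∃ e, g.IsHomogeneous e)
    (hdim : ringKrullDim (MvPolynomial (Fin (N + 1)) k0 ⧸ Ideal.span G) ≤ (n + 1 : ℕ))
    (x : Fin (N + 1) → K) (hx : x ≠ 0) (h0 : ∀ g ∈ G, aeval x g = 0) :
    Module.finrank K (Submodule.span K (insert x {u : Fin (N + 1) → K |
      ∃ δ : Derivation k0 K K, u = fun p => δ (x p)})) ≤ n + 1 := by
  classical
  obtain ⟨j, hj⟩ : ∃ j, x j ≠ 0 := Function.ne_iff.1 hx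
  have hj0 : x j ≠ 0 := hj
  set x' : Fin (N + 1) → K := fun p => (x j)⁻¹ * x p with hx'
  have hxx' : ∀ p, x p = x j * x' p := fun p => by
    simp only [hx']
    rw [← mul_assoc, mul_inv_cancel₀ hj0, one_mul]
  have hx'j : x' j = 1 := inv_mul_cancel₀ hj0
  have h0' : ∀ g ∈ G, aeval x' g = 0 := by
    intro g hg
    obtain ⟨e, he⟩ := hG g hg
    rw [hx', aeval_scale he, h0 g hg, mul_zero]
  -- a transcendence basis among the coordinates
  obtain ⟨B, hB⟩ := (AlgebraicIndependent.matroid k0 K).exists_isBasis (Set.range x')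
    (Set.subset_univ _)
  obtain ⟨hBi, hBs, hBa⟩ := AlgebraicIndependent.matroid_isBasis_iff.1 hB
  have hBfin : B.Finite := (Set.finite_range x').subset hBs
  have : Fintype B := hBfin.fintype
  -- its cardinality
  have hcard : Fintype.card B ≤ n := by
    let f0 : MvPolynomial (Fin (N + 1)) k0 →ₐ[k0] Polynomial K :=
      aeval fun p => Polynomial.X * Polynomial.C (x' p)
    have hf0 : ∀ g ∈ Ideal.span G, f0 g = 0 := by
      have : Ideal.span G ≤ RingHom.ker f0 := by
        rw [Ideal.span_le]
        intro g hg
        obtain ⟨e, he⟩ := hG g hg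
        change aeval (fun p => Polynomial.X * Polynomial.C (x' p)) g = 0
        rw [aeval_scale he]
        have h1 : aeval (fun p => Polynomial.C (x' p)) g =
            Polynomial.C (aeval x' g) := by
          have := MvPolynomial.aeval_unique
            (((IsScalarTower.toAlgHom k0 K (Polynomial K)).comp (aeval x')))
          have h2 := congrArg (fun f => f g) this
          simp only [AlgHom.comp_apply] at h2
          rw [show (Polynomial.C (aeval x' g) : Polynomial K) =
            (IsScalarTower.toAlgHom k0 K (Polynomial K)) (aeval x' g) from rfl, h2]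
          congr 2
          funext p
          simp
        rw [h1, h0' g hg, map_zero, mul_zero]
      exact fun g hg => this hg
    let f : (MvPolynomial (Fin (N + 1)) k0 ⧸ Ideal.span G) →ₐ[k0] Polynomial K :=
      Ideal.Quotient.liftₐ (Ideal.span G) f0 hf0
    have hff : ∀ g, f (Ideal.Quotient.mk _ g) = f0 g := fun g => rfl
    have h3 := le_krullDim f (Sum.elim (fun _ : Unit => Polynomial.X)
      (fun p : B => Polynomial.X * Polynomial.C (p : K)) : Unit ⊕ B → Polynomial K)
      (indep_cone (fun p : B => (p : K)) hBi) (by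
        rintro (u | ⟨b, hb⟩)
        · refine ⟨Ideal.Quotient.mk _ (X j), ?_⟩
          change f0 (X j) = _
          simp only [f0, aeval_X, hx'j, Polynomial.C_1, mul_one, Sum.elim_inl]
        · obtain ⟨p, hp⟩ := hBs hb
          refine ⟨Ideal.Quotient.mk _ (X p), ?_⟩
          change f0 (X p) = _
          simp only [f0, aeval_X, hp, Sum.elim_inr]) (n + 1) hdim
    rw [Fintype.card_sum, Fintype.card_unit] at h3
    omega
  -- the rank of the derivatives of `x'`
  have hr := finrank_le (k0 := k0) (fun b : B => (b : K)) x' (fun p => by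
    rw [Subtype.range_coe]
    exact hBa _ ⟨p, rfl⟩)
  set W := Submodule.span K {u : Fin (N + 1) → K | ∃ δ : Derivation k0 K K,
    u = fun p => δ (x' p)} with hW
  have hle : Submodule.span K (insert x {u : Fin (N + 1) → K |
      ∃ δ : Derivation k0 K K, u = fun p => δ (x p)}) ≤ Submodule.span K {x} ⊔ W := by
    rw [Submodule.span_le]
    rintro u (rfl | ⟨δ, rfl⟩)
    · exact Submodule.mem_sup_left (Submodule.mem_span_singleton_self _)
    · have h1 : (fun p => δ (x p)) = (δ (x j) / x j) • x + x j • (fun p => δ (x' p)) := by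
        funext p
        simp only [Pi.add_apply, Pi.smul_apply, smul_eq_mul]
        have h2 : δ (x p) = x j * δ (x' p) + x' p * δ (x j) := by
          conv_lhs => rw [hxx' p]
          rw [Derivation.leibniz, smul_eq_mul, smul_eq_mul]
        rw [h2]
        simp only [hx']
        field_simp
        ring
      rw [h1]
      refine add_mem (Submodule.mem_sup_left ?_) (Submodule.mem_sup_right ?_)
      · exact Submodule.smul_mem _ _ (Submodule.mem_span_singleton_self _)
      · exact Submodule.smul_mem _ _ (Submodule.subset_span ⟨δ, rfl⟩)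
  refine (Submodule.finrank_mono hle).trans ?_
  refine (Submodule.finrank_add_le_finrank_add_finrank _ _).trans ?_
  have h5 : Module.finrank K (Submodule.span K {x}) ≤ 1 := by
    have := finrank_span_le_card (R := K) ({x} : Set (Fin (N + 1) → K))
    simpa using this
  omega

end Pool.Agent.GenY.H46
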