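import Mathlib

/-!
# MP_c7af3c_ag, project Y: module BPF (projective Nullstellensatz)
-/

set_option autoImplicit false

namespace Pool.Agent.GenY.H46

open MvPolynomial

attribute [local instance] MvPolynomial.gradedAlgebra

theorem hc_mul {σ R : Type} [CommRing R] (A φ : MvPolynomial σ R) {r : ℕ}
    (hφ : φ.IsHomogeneous r) (e : ℕ) :
    homogeneousComponent (e + r) (A * φ) = homogeneousComponent e A * φ := by
  classical
  have h1 := DirectSum.coe_decompose_mul_of_right_mem_of_le (homogeneousSubmodule σ R)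
    (a := A) (b := φ) (i := r) (n := e + r) hφ (Nat.le_add_left r e)
  rw [Nat.add_sub_cancel] at h1
  have h2 : ∀ (ψ : MvPolynomial σ R) (i : ℕ),
      (DirectSum.decompose (homogeneousSubmodule σ R) ψ i : MvPolynomial σ R) =
        homogeneousComponent i ψ := fun ψ i => decomposition.decompose'_apply ψ i
  rw [h2, h2] at h1
  exact h1

/-- Module BPF: if the forms `φ j` of degree `r` over `k0` have no common zero on `Z(k)`, then
there is a Nullstellensatz identity over `k0`. -/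
theorem bpf {k0 k : Type} [Field k0] [Field k] [IsAlgClosed k] [Algebra k0 k] {N M r : ℕ}
    (G : Set (MvPolynomial (Fin (N + 1)) k0)) (hG : ∀ g ∈ G, ∃ e, g.IsHomogeneous e)
    (φ : Fin (M + 1) → MvPolynomial (Fin (N + 1)) k0) (hφ : ∀ j, (φ j).IsHomogeneous r)
    (h : ∀ x : Fin (N + 1) → k, (∀ g ∈ G, aeval x g = 0) → (∀ j, aeval x (φ j) = 0) → x = 0)
    (p : Fin (N + 1)) :
    ∃ (e : ℕ) (A : Fin (M + 1) → MvPolynomial (Fin (N + 1)) k0),
      (∀ j, (A j).IsHomogeneous e) ∧ X p ^ (e + r) - ∑ j, A j * φ j ∈ Ideal.span G := by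
  classical
  set I' : Ideal (MvPolynomial (Fin (N + 1)) k0) := Ideal.span (G ∪ Set.range φ) with hI'
  have h1 : X p ∈ vanishingIdeal k0 (zeroLocus k I') := by
    intro x hx
    have hx0 : x = 0 := h x (fun g hg => hx g (Ideal.subset_span (Or.inl hg)))
      (fun j => hx _ (Ideal.subset_span (Or.inr ⟨j, rfl⟩)))
    rw [aeval_X, hx0]
    rfl
  rw [vanishingIdeal_zeroLocus_eq_radical] at h1
  obtain ⟨e, he⟩ := h1
  have h2 : X p ^ (e + r) ∈ I' := by
    rw [pow_add]
    exact Ideal.mul_mem_right _ _ he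
  rw [hI', Ideal.span_union, Submodule.mem_sup] at h2
  obtain ⟨u, hu, v, hv, huv⟩ := h2
  obtain ⟨A, hA⟩ := Ideal.mem_span_range_iff_exists_fun.1 hv
  refine ⟨e, fun j => homogeneousComponent e (A j), fun j =>
    homogeneousComponent_isHomogeneous e (A j), ?_⟩
  have h3 : X p ^ (e + r) - ∑ j, homogeneousComponent e (A j) * φ j =
      homogeneousComponent (e + r) u := by
    have h4 : homogeneousComponent (e + r) (X p ^ (e + r) : MvPolynomial (Fin (N + 1)) k0) =
        X p ^ (e + r) := by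
      rw [homogeneousComponent_of_mem (isHomogeneous_X_pow p (e + r)), if_pos rfl]
    rw [← h4, ← huv, ← hA, map_add, map_sum]
    simp only [hc_mul _ _ (hφ _)]
    ring
  rw [h3]
  refine homogeneousComponent_mem_of_mem ?_ hu _
  exact Ideal.homogeneous_span _ _ fun g hg => by
    obtain ⟨e', he'⟩ := hG g hg
    exact ⟨e', he'⟩

/-- the identity at a point -/
theorem bpf_eval {k0 k : Type} [Field k0] [Field k] [IsAlgClosed k] [Algebra k0 k] {N M r : ℕ}
    (G : Set (MvPolynomial (Fin (N + 1)) k0)) (hG : ∀ g ∈ G, ∃ e, g.IsHomogeneous e)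
    (φ : Fin (M + 1) → MvPolynomial (Fin (N + 1)) k0) (hφ : ∀ j, (φ j).IsHomogeneous r)
    (h : ∀ x : Fin (N + 1) → k, (∀ g ∈ G, aeval x g = 0) → (∀ j, aeval x (φ j) = 0) → x = 0)
    {L : Type} [Field L] [Algebra k0 L] (x : Fin (N + 1) → L) (hx : ∀ g ∈ G, aeval x g = 0)
    (p : Fin (N + 1)) :
    ∃ (e : ℕ) (A : Fin (M + 1) → MvPolynomial (Fin (N + 1)) k0),
      (∀ j, (A j).IsHomogeneous e) ∧ x p ^ (e + r) = ∑ j, aeval x (A j) * aeval x (φ j) := by
  obtain ⟨e, A, hA, h1⟩ := bpf G hG φ hφ h p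
  refine ⟨e, A, hA, ?_⟩
  have h2 : ∀ u ∈ Ideal.span G, aeval x u = 0 := by
    have h3 : Ideal.span G ≤ RingHom.ker (aeval x : MvPolynomial (Fin (N + 1)) k0 →ₐ[k0] L) := by
      rw [Ideal.span_le]
      exact fun g hg => hx g hg
    exact fun u hu => h3 hu
  have h4 := h2 _ h1
  rw [map_sub, map_pow, aeval_X, map_sum, sub_eq_zero] at h4
  rw [h4]
  exact Finset.sum_congr rfl fun j _ => map_mul _ _ _

end Pool.Agent.GenY.H46
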