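import Pool.Agent.Lib.MP_c7af3c_ag.MET.Base
import Pool.Agent.Lib.MP_c7af3c_ag.YY.H46.Rank
import Pool.Agent.Lib.MP_c7af3c_ag.YY.H46.Bpf
import Pool.Agent.Lib.MP_c7af3c_ag.GEN.Y.Base

/-!
# MP_c7af3c_ag, project Y: module HBY, the height bound for sections of an arbitrary variety
-/

set_option autoImplicit false

namespace Pool.Agent.GenY.H46

open MvPolynomial WithZero Pool.Agent.Gen Pool.Agent.Gen.Y Pool.Agent.Met

/-- the indices of the coefficients -/
abbrev Ix {M c : ℕ} (d : Fin c → ℕ) : Type :=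
  {s : Fin c × (Fin (M + 1) →₀ ℕ) // s.2.degree = d s.1}

theorem finite_deg (M e : ℕ) : {I : Fin (M + 1) →₀ ℕ | I.degree = e}.Finite :=
  (Finsupp.finite_of_degree_le e).subset fun _ hI => le_of_eq hI

instance finite_Ix {M c : ℕ} (d : Fin c → ℕ) : Finite (Ix (M := M) d) := by
  let f : Ix (M := M) d → Σ m : Fin c, {I : Fin (M + 1) →₀ ℕ | I.degree = d m} :=
    fun s => ⟨s.1.1, ⟨s.1.2, s.2⟩⟩
  have : ∀ m, Finite {I : Fin (M + 1) →₀ ℕ | I.degree = d m} := fun m =>
    (finite_deg M (d m)).to_subtype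
  refine Finite.of_injective f ?_
  rintro ⟨⟨m, I⟩, h⟩ ⟨⟨m', I'⟩, h'⟩ hf
  simp only [f, Sigma.mk.injEq] at hf
  obtain ⟨rfl, h2⟩ := hf
  have h3 := eq_of_heq h2
  simp only [Subtype.mk.injEq] at h3
  subst h3
  rfl

noncomputable instance fintype_Ix {M c : ℕ} (d : Fin c → ℕ) : Fintype (Ix (M := M) d) :=
  Fintype.ofFinite _

section

variable {M c : ℕ} {d : Fin c → ℕ}

/-- the form with given coefficients -/
noncomputable def formOf {L : Type} [CommRing L] (a : Ix (M := M) d → L) (m : Fin c) :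
    MvPolynomial (Fin (M + 1)) L :=
  ∑ s, if s.1.1 = m then monomial s.1.2 (a s) else 0

theorem formOf_hom {L : Type} [CommRing L] (a : Ix (M := M) d → L) (m : Fin c) :
    (formOf a m).IsHomogeneous (d m) := by
  classical
  refine IsHomogeneous.sum _ _ _ fun s _ => ?_
  split_ifs with h
  · exact isHomogeneous_monomial _ (by rw [s.2, h])
  · exact isHomogeneous_zero _ _ _

theorem coeff_formOf {L : Type} [CommRing L] (a : Ix (M := M) d → L) (m : Fin c)
    (J : Fin (M + 1) →₀ ℕ) (hJ : J.degree = d m) :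
    coeff J (formOf a m) = a ⟨(m, J), hJ⟩ := by
  classical
  unfold formOf
  rw [coeff_sum, Finset.sum_eq_single ⟨(m, J), hJ⟩]
  · simp
  · rintro ⟨⟨m', I⟩, h⟩ _ hne
    split_ifs with h1
    · rw [coeff_monomial, if_neg]
      rintro rfl
      apply hne
      simp only at h1
      subst h1
      rfl
    · exact coeff_zero _
  · intro h; exact absurd (Finset.mem_univ _) h

theorem eq_formOf {L : Type} [CommRing L] (F : Fin c → MvPolynomial (Fin (M + 1)) L)
    (hF : ∀ m, (F m).IsHomogeneous (d m)) (m : Fin c) :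
    F m = formOf (fun s : Ix (M := M) d => coeff s.1.2 (F s.1.1)) m := by
  classical
  ext J
  by_cases hJ : J.degree = d m
  · rw [coeff_formOf _ _ _ hJ]
  · have h1 : ∀ G : MvPolynomial (Fin (M + 1)) L, G.IsHomogeneous (d m) → coeff J G = 0 := by
      intro G hG
      apply hG.coeff_eq_zero
      rwa [Finsupp.degree_eq_weight_one] at hJ ⊢
    rw [h1 _ (hF m), h1 _ (formOf_hom _ m)]

theorem eval_formOf {L : Type} [CommRing L] (a : Ix (M := M) d → L) (m : Fin c)
    (y : Fin (M + 1) → L) :
    eval y (formOf a m) = ∑ s, if s.1.1 = m then a s * ∏ j, y j ^ s.1.2 j else 0 := by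
  classical
  unfold formOf
  rw [map_sum]
  refine Finset.sum_congr rfl fun s _ => ?_
  split_ifs
  · rw [eval_monomial, Finsupp.prod_fintype _ _ (fun _ => pow_zero _)]
  · exact map_zero _

/-- the system of derivations -/
noncomputable def toDSys {L : Type} [Field L] (D : DD (Ix (M := M) d) L) : DSys L M c d := by
  classical
  exact
  { F := formOf D.a
    hom := formOf_hom D.a
    del := fun m I => if h : I.degree = d m then D.del ⟨(m, I), h⟩ else 0
    dual := by
      intro m I m' J hI hJ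
      rw [dif_pos hI, coeff_formOf _ _ _ hJ]
      by_cases h : m = m' ∧ I = J
      · obtain ⟨rfl, rfl⟩ := h
        rw [if_pos ⟨rfl, rfl⟩]
        exact D.one _
      · rw [if_neg h]
        apply D.zero
        intro h1
        apply h
        have h2 := congrArg Subtype.val h1
        exact ⟨congrArg Prod.fst h2, congrArg Prod.snd h2⟩ }

theorem toDSys_del {L : Type} [Field L] (D : DD (Ix (M := M) d) L) (m : Fin c)
    (I : Fin (M + 1) →₀ ℕ) (h : I.degree = d m) :
    (toDSys D).del m I = D.del ⟨(m, I), h⟩ := dif_pos h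

theorem toDSys_del' {L : Type} [Field L] (D : DD (Ix (M := M) d) L) (m : Fin c)
    (I : Fin (M + 1) →₀ ℕ) (h : ¬ I.degree = d m) :
    (toDSys D).del m I = 0 := dif_neg h

end

section

variable {k0 R : Type} [Field k0] [Field R] [Algebra k0 R] {N M c : ℕ} (d : Fin c → ℕ)
  (G : Set (MvPolynomial (Fin (N + 1)) k0)) (φ : Fin (M + 1) → MvPolynomial (Fin (N + 1)) k0)
  (j0 : Fin (N + 1))

/-- the generic form as a polynomial in the coefficients and the coordinates -/
noncomputable def genForm (R : Type) [Field R] [Algebra k0 R] (m : Fin c) :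
    MvPolynomial (Ix (M := M) d ⊕ Fin (N + 1)) R :=
  ∑ s : Ix (M := M) d, if s.1.1 = m then X (Sum.inl s) *
    ∏ j, (rename Sum.inr (map (algebraMap k0 R) (φ j))) ^ s.1.2 j else 0

/-- the system of equations -/
def EE (R : Type) [Field R] [Algebra k0 R] :
    Set (MvPolynomial (Ix (M := M) d ⊕ Fin (N + 1)) R) :=
  {X (Sum.inr j0) - 1} ∪ ((fun g => rename Sum.inr (map (algebraMap k0 R) g)) '' G) ∪
    Set.range (genForm d φ R)

theorem eval_ren {L : Type} [Field L] (ψ : R →+* L) (a : Ix (M := M) d → L)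
    (z : Fin (N + 1) → L) (g : MvPolynomial (Fin (N + 1)) k0) :
    eval₂ ψ (Sum.elim a z) (rename Sum.inr (map (algebraMap k0 R) g)) =
      eval₂ (ψ.comp (algebraMap k0 R)) z g := by
  rw [eval₂_rename, eval₂_map]
  rfl

theorem sol_iff {L : Type} [Field L] (ψ : R →+* L) (a : Ix (M := M) d → L)
    (z : Fin (N + 1) → L) : Sol (EE d G φ j0 R) ψ a z ↔
      z j0 = 1 ∧ (∀ g ∈ G, eval₂ (ψ.comp (algebraMap k0 R)) z g = 0) ∧
      ∀ m, eval (fun j => eval₂ (ψ.comp (algebraMap k0 R)) z (φ j)) (formOf a m) = 0 := by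
  have h1 : ∀ m, eval₂ ψ (Sum.elim a z) (genForm d φ R m) =
      eval (fun j => eval₂ (ψ.comp (algebraMap k0 R)) z (φ j)) (formOf a m) := by
    intro m
    rw [eval_formOf, genForm, eval₂_sum]
    refine Finset.sum_congr rfl fun s _ => ?_
    split_ifs
    · rw [eval₂_mul, eval₂_X, eval₂_prod]
      simp only [eval₂_pow, eval_ren, Sum.elim_inl]
    · exact eval₂_zero _ _
  constructor
  · intro h
    refine ⟨?_, ?_, ?_⟩
    · have h2 := h (X (Sum.inr j0) - 1) (Or.inl (Or.inl rfl))
      rw [eval₂_sub, eval₂_X, eval₂_one, Sum.elim_inr, sub_eq_zero] at h2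
      exact h2
    · intro g hg
      have h2 := h _ (Or.inl (Or.inr ⟨g, hg, rfl⟩))
      simpa only [eval_ren] using h2
    · intro m
      rw [← h1]
      exact h _ (Or.inr ⟨m, rfl⟩)
  · rintro ⟨h2, h3, h4⟩ P ((hP | ⟨g, hg, rfl⟩) | ⟨m, rfl⟩)
    · rw [Set.mem_singleton_iff.1 hP, eval₂_sub, eval₂_X, eval₂_one, Sum.elim_inr, h2, sub_self]
    · simp only [eval_ren]
      exact h3 g hg
    · rw [h1]
      exact h4 m

/-- heights of single coordinates -/
theorem ht_single_le {N : ℕ} (j0 : Fin (N + 1)) {L : Type} [Field L] (S : PlaceSys L)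
    (hS : ∀ f : L, f ≠ 0 → {p | S.v p f ≠ 1}.Finite) (x : Fin (N + 1) → L) (h : x j0 = 1)
    (j : Fin (N + 1)) : S.ht ![1, x j] ≤ S.ht x := by
  have hx : x ≠ 0 := fun h0 => by rw [h0] at h; exact zero_ne_one h
  have hy : (![1, x j] : Fin (1 + 1) → L) ≠ 0 := fun h0 => one_ne_zero (congrFun h0 0)
  have hle : ∀ p, log (S.mx ![1, x j] p) ≤ log (S.mx x p) := by
    intro p
    have h1 : S.mx ![1, x j] p ≤ S.mx x p := by
      obtain ⟨i, hi⟩ := S.exists_mx ![1, x j] p
      rw [← hi]
      fin_cases i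
      · change S.v p 1 ≤ _
        rw [← h]
        exact S.le_mx x p j0
      · exact S.le_mx x p j
    have h2 := S.mx_ne_zero _ hy p
    have h3 := S.mx_ne_zero x hx p
    rw [← exp_log h2, ← exp_log h3] at h1
    exact WithZero.exp_le_exp.1 h1
  have hf1 := S.finite_mx _ hS hy
  have hf2 := S.finite_mx x hS hx
  unfold PlaceSys.ht
  have hs : ∀ (n' : ℕ) (y : Fin (n' + 1) → L), y ≠ 0 →
      (Function.support fun p => (S.w p : ℤ) * log (S.mx y p)).Finite := by
    intro n' y hy
    refine (S.finite_mx y hS hy).subset fun p hp => ?_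
    simp only [Function.mem_support, ne_eq, mul_eq_zero, not_or] at hp
    exact fun h0 => hp.2 (by rw [h0, log_one])
  refine finsum_le_finsum' (hs _ _ hy) (hs _ x hx) fun p => ?_
  exact mul_le_mul_of_nonneg_left (hle p) (by positivity)

end

/-- Module HBY. -/
theorem hbY (hGlob : GlobYStatement) {k0 R k : Type} [Field k0] [Field R] [Algebra k0 R]
    [Field k] [IsAlgClosed k] [Algebra k0 k]
    {N M c n r : ℕ} (d : Fin c → ℕ)
    (G : Set (MvPolynomial (Fin (N + 1)) k0)) (hG : ∀ g ∈ G, ∃ e, g.IsHomogeneous e)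
    (hdim : ringKrullDim (MvPolynomial (Fin (N + 1)) k0 ⧸ Ideal.span G) ≤ (n + 1 : ℕ))
    (φ : Fin (M + 1) → MvPolynomial (Fin (N + 1)) k0) (hφ : ∀ j, (φ j).IsHomogeneous r)
    (h : ∀ x : Fin (N + 1) → k, (∀ g ∈ G, aeval x g = 0) → (∀ j, aeval x (φ j) = 0) → x = 0)
    (hd : n + 2 + r * n ≤ r * c + r * ∑ m, d m) (j0 : Fin (N + 1)) :
    HB (EE d G φ j0 R) := by
  classical
  refine ⟨n, fun L _ _ ψ D hD z hz S hS hSk B hB j => ?_⟩
  let _ : Algebra k0 L := (ψ.comp (algebraMap k0 R)).toAlgebra
  have hal : ∀ a, algebraMap k0 L a = ψ (algebraMap k0 R a) := fun a => rfl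
  have hae : ∀ g : MvPolynomial (Fin (N + 1)) k0,
      eval₂ (ψ.comp (algebraMap k0 R)) z g = aeval z g := fun g => rfl
  obtain ⟨hz0, hzG, hzF⟩ := (sol_iff d G φ j0 ψ D.a z).1 hz
  simp only [hae] at hzG hzF
  have hzne : z ≠ 0 := fun h0 => by rw [h0] at hz0; exact zero_ne_one hz0
  unfold h1
  refine (ht_single_le j0 S hS.fin z hz0 j).trans ?_
  have hkill : ∀ m I (a : k0), (toDSys D).del m I (algebraMap k0 L a) = 0 := by
    intro m I a
    by_cases hI : I.degree = d m
    · rw [toDSys_del D m I hI, hal]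
      exact hD _ _
    · rw [toDSys_del' D m I hI]; rfl
  refine hGlob k0 L N M c n r d (toDSys D) φ z hkill hφ hzne
    (fun p => bpf_eval G hG φ hφ h z hzG p) hzF ?_ hd S hS (fun p a => by
      rw [hal]; exact hSk p _) B hB.fin (fun p m I hI f hf => by
      rw [toDSys_del D m I hI]; exact hB.del p _ f hf)
  -- the rank bound
  refine le_trans (Submodule.finrank_mono ?_) (rank_bound G hG hdim z hzne hzG)
  unfold TY
  rw [Submodule.span_le]
  rintro u (rfl | ⟨m, P, hP, rfl⟩)
  · exact Submodule.subset_span (Or.inl rfl)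
  · have h1 : VY (toDSys D) z m P = ∑ I ∈ P.support, coeff I P •
        (fun p => (toDSys D).del m I (z p)) := by
      have h2 : P = ∑ I ∈ P.support, coeff I P • (basisMonomials (Fin (M + 1)) L) I := by
        conv_lhs => rw [P.as_sum]
        refine Finset.sum_congr rfl fun I _ => ?_
        rw [coe_basisMonomials, smul_monomial]
        simp
      conv_lhs => rw [h2]
      rw [map_sum]
      refine Finset.sum_congr rfl fun I _ => ?_
      rw [map_smul]
      unfold VY
      rw [Module.Basis.constr_basis]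
    rw [h1]
    refine Submodule.sum_mem _ fun I _ => Submodule.smul_mem _ _ ?_
    let δ : Derivation k0 L L :=
      { toLinearMap := { toFun := (toDSys D).del m I
                         map_add' := map_add _
                         map_smul' := fun a b => by
                           have e1 : ∀ b : L, a • b = algebraMap k0 L a * b :=
                             fun b => Algebra.smul_def a b
                           rw [e1, Derivation.leibniz, hkill, smul_zero, add_zero,
                             RingHom.id_apply, e1, smul_eq_mul] }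
        map_one_eq_zero' := Derivation.map_one_eq_zero _
        leibniz' := fun a b => Derivation.leibniz _ a b }
    exact Submodule.subset_span (Or.inr ⟨δ, rfl⟩)

end Pool.Agent.GenY.H46
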